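import Mathlib

set_option autoImplicit false

/-!
# Norms from `E ⊗ F` to `E` at the embeddings of `E`
-/

namespace Pool.Agent.V8H84.OM

open scoped TensorProduct
open Module NumberField

variable {F E : Type} [Field F] [NumberField F] [Field E] [NumberField E]

/-- the homomorphism `e ⊗ x ↦ ι e * σ x` -/
noncomputable def ev (ι : E →+* ℂ) (σ : F →+* ℂ) : (E ⊗[ℚ] F) →+* ℂ :=
  (Algebra.TensorProduct.productMap ι.toRatAlgHom σ.toRatAlgHom).toRingHom

lemma ev_tmul (ι : E →+* ℂ) (σ : F →+* ℂ) (e : E) (x : F) : ev ι σ (e ⊗ₜ x) = ι e * σ x := by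
  unfold ev
  simp

lemma ev_smul (ι : E →+* ℂ) (σ : F →+* ℂ) (e : E) (z : E ⊗[ℚ] F) :
    ev ι σ (e • z) = ι e * ev ι σ z := by
  have h : e • z = (e ⊗ₜ (1 : F)) * z := by
    rw [Algebra.smul_def]
    rfl
  rw [h, map_mul, ev_tmul, map_one, mul_one]

/-- the norm from `E ⊗ F` to `E` at the embedding `ι` of `E` -/
theorem norm_ev (ι : E →+* ℂ) (z : E ⊗[ℚ] F) :
    ι (Algebra.norm E z) = ∏ σ : F →+* ℂ, ev ι σ z := by
  classical
  set n := finrank ℚ F with hn
  let b : Basis (Fin n) ℚ F := Module.finBasis ℚ F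
  let bE : Basis (Fin n) E (E ⊗[ℚ] F) := Algebra.TensorProduct.basis E b
  let e : Fin n ≃ (F →ₐ[ℚ] ℂ) := (Fintype.equivFinOfCardEq (by
    rw [AlgHom.card ℚ F ℂ])).symm
  let V : Matrix (Fin n) (Fin n) ℂ := (Algebra.embeddingsMatrixReindex ℚ ℂ b e).transpose
  have hV : ∀ j i, V j i = (e j) (b i) := by
    intro j i
    simp [V, Algebra.embeddingsMatrixReindex, Algebra.embeddingsMatrix]
  have hVdet : V.det ≠ 0 := by
    have h1 := Algebra.discr_eq_det_embeddingsMatrixReindex_pow_two (K := ℚ) (E := ℂ) (b := b) e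
    have h2 := Algebra.discr_not_zero_of_basis ℚ b
    intro h3
    have h4 : (Algebra.embeddingsMatrixReindex ℚ ℂ b e).det = 0 := by
      rw [← Matrix.det_transpose]
      exact h3
    rw [h4, zero_pow two_ne_zero] at h1
    exact h2 ((map_eq_zero (algebraMap ℚ ℂ)).1 h1)
  set A : Matrix (Fin n) (Fin n) E := Algebra.leftMulMatrix bE z with hA
  have hmul : ∀ j, z * bE j = ∑ i, A i j • bE i := by
    intro j
    rw [← bE.sum_repr (z * bE j)]
    apply Finset.sum_congr rfl
    intro i _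
    rw [hA, Algebra.leftMulMatrix_eq_repr_mul]
  have key : V * A.map ι = Matrix.diagonal (fun j => ev ι (e j : F →+* ℂ) z) * V := by
    ext j' j
    rw [Matrix.diagonal_mul, Matrix.mul_apply, hV]
    have h1 := congrArg (ev ι (e j' : F →+* ℂ)) (hmul j)
    rw [map_mul, map_sum] at h1
    have h2 : ∀ i, ev ι (e j' : F →+* ℂ) (bE i) = (e j') (b i) := by
      intro i
      have : bE i = (1 : E) ⊗ₜ b i := Algebra.TensorProduct.basis_apply b i
      rw [this, ev_tmul, map_one, one_mul]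
      rfl
    rw [h2] at h1
    rw [h1]
    apply Finset.sum_congr rfl
    intro i _
    rw [ev_smul, h2, hV, Matrix.map_apply, mul_comm]
  have h3 := congrArg Matrix.det key
  rw [Matrix.det_mul, Matrix.det_mul, Matrix.det_diagonal, mul_comm] at h3
  have h4 := mul_right_cancel₀ hVdet h3
  have h5 : ι (Algebra.norm E z) = (A.map ι).det := by
    rw [Algebra.norm_eq_matrix_det bE z, RingHom.map_det]
    rfl
  rw [h5, h4]
  let e2 : Fin n ≃ (F →+* ℂ) := e.trans (RingHom.equivRatAlgHom F ℂ).symm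
  rw [← e2.prod_comp]
  rfl

lemma ev_conj (ι : E →+* ℂ) (hι : ∀ e, star (ι e) = ι e) (σ : F →+* ℂ) (z : E ⊗[ℚ] F) :
    ev ι (ComplexEmbedding.conjugate σ) z = star (ev ι σ z) := by
  induction z using TensorProduct.induction_on with
  | zero => simp
  | tmul e x =>
    rw [ev_tmul, ev_tmul, star_mul', hι]
    rfl
  | add a b ha hb => rw [map_add, map_add, ha, hb, star_add]

/-- a product over the embeddings of a totally complex field -/
theorem prod_pos [IsTotallyComplex F] (f : (F →+* ℂ) → ℂ)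
    (hf : ∀ σ, f (ComplexEmbedding.conjugate σ) = star (f σ)) (h0 : ∀ σ, f σ ≠ 0) :
    ∃ r : ℝ, 0 < r ∧ ∏ σ : F →+* ℂ, f σ = r := by
  classical
  refine ⟨∏ σ : F →+* ℂ, ‖f σ‖, Finset.prod_pos fun σ _ => norm_pos_iff.2 (h0 σ), ?_⟩
  have h1 : ∏ σ : F →+* ℂ, f σ / (‖f σ‖ : ℂ) = 1 := by
    apply Finset.prod_involution (fun σ _ => ComplexEmbedding.conjugate σ)
    · intro σ _
      rw [hf]
      have h2 : (‖star (f σ)‖ : ℂ) = ‖f σ‖ := by rw [norm_star]
      have h3 : f σ * star (f σ) = (‖f σ‖ : ℂ) * ‖f σ‖ := by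
        rw [← pow_two, ← Complex.conj_mul', mul_comm]
        rfl
      have h4 : (‖f σ‖ : ℂ) ≠ 0 := by
        rw [Ne, Complex.ofReal_eq_zero]
        exact norm_ne_zero_iff.2 (h0 σ)
      rw [h2, div_mul_div_comm, h3, div_self (mul_ne_zero h4 h4)]
    · intro σ _ _ h2
      exact IsTotallyComplex.complexEmbedding_not_isReal σ h2
    · intro σ _
      exact Finset.mem_univ _
    · intro σ _
      exact star_star σ
  rw [Finset.prod_div_distrib] at h1
  have h4 : (∏ σ : F →+* ℂ, (‖f σ‖ : ℂ)) ≠ 0 := by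
    apply Finset.prod_ne_zero_iff.2
    intro σ _
    rw [Ne, Complex.ofReal_eq_zero]
    exact norm_ne_zero_iff.2 (h0 σ)
  rw [div_eq_one_iff_eq h4] at h1
  rw [h1]
  push_cast
  rfl

/-- norms of units are positive at the real embeddings of `E` if `F` is totally complex -/
theorem norm_pos [IsTotallyComplex F] (ι : E →+* ℂ) (hι : ∀ e, star (ι e) = ι e) (z : E ⊗[ℚ] F)
    (hz : IsUnit z) : ∃ r : ℝ, 0 < r ∧ ι (Algebra.norm E z) = r := by
  rw [norm_ev]
  exact prod_pos _ (fun σ => ev_conj ι hι σ z) (fun σ => (hz.map (ev ι σ)).ne_zero)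

end Pool.Agent.V8H84.OM
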