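import Pool.Agent.V8H87.MB.Delta2
import Pool.Agent.V8H84.OM.Norm

set_option autoImplicit false

/-!
# The discriminant of a CM field up to squares
-/

namespace Pool.Agent.V8H84.OM

open Module NumberField Matrix
open Pool.Agent.V8H87.MB

variable {F : Type} [Field F] [NumberField F]

lemma cc_coe (σ : F →+* ℂ) (a : maximalRealSubfield F) : star (σ a) = σ a := by
  have h := cc_real (σ.comp (algebraMap (maximalRealSubfield F) F))
  exact congrArg (fun f : maximalRealSubfield F →+* ℂ => f a) h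

lemma trace_mul_PI {δ : F} (hδ : PI δ) (a : maximalRealSubfield F) :
    Algebra.trace ℚ F ((a : F) * δ) = 0 := by
  classical
  have h1 := trace_eq_sum_embeddings (K := ℚ) (L := F) ℂ (x := (a : F) * δ)
  have h2 : ∑ σ : F →ₐ[ℚ] ℂ, σ ((a : F) * δ) = ∑ σ : F →+* ℂ, σ ((a : F) * δ) := by
    rw [← (RingHom.equivRatAlgHom F ℂ).sum_comp]
    rfl
  let e : (F →+* ℂ) ≃ (F →+* ℂ) := ⟨cc, cc, cc_cc, cc_cc⟩
  have h3 : ∑ σ : F →+* ℂ, σ ((a : F) * δ) = -∑ σ : F →+* ℂ, σ ((a : F) * δ) := by
    conv_lhs => rw [← e.sum_comp]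
    rw [← Finset.sum_neg_distrib]
    apply Finset.sum_congr rfl
    intro σ _
    change cc σ ((a : F) * δ) = _
    rw [cc_apply, map_mul, star_mul', cc_coe, hδ.2 σ]
    ring
  rw [h2] at h1
  have h4 : ∑ σ : F →+* ℂ, σ ((a : F) * δ) = 0 := by
    have : (2 : ℂ) * ∑ σ : F →+* ℂ, σ ((a : F) * δ) = 0 := by linear_combination h3
    exact (mul_eq_zero.1 this).resolve_left two_ne_zero
  rw [h4] at h1
  exact (map_eq_zero (algebraMap ℚ ℂ)).1 h1

variable [IsCMField F]

lemma trace_coe (a : maximalRealSubfield F) :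
    Algebra.trace ℚ F (a : F) = 2 * Algebra.trace ℚ (maximalRealSubfield F) a := by
  have h1 : (a : F) = algebraMap (maximalRealSubfield F) F a := rfl
  rw [← Algebra.trace_trace (S := maximalRealSubfield F), h1, Algebra.trace_algebraMap,
    Algebra.IsQuadraticExtension.finrank_eq_two, two_nsmul, map_add, two_mul]

/-- **The discriminant of `F = F₀(√D)` is `N(D)` up to squares.** -/
theorem discr_cm (D : maximalRealSubfield F) (δ : F)
    (hD : ∀ σ : maximalRealSubfield F →+* ℂ, ∃ t : ℝ, t < 0 ∧ σ D = t) (hδ : δ ^ 2 = (D : F)) :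
    ∃ q : ℚ, q ≠ 0 ∧ (discr F : ℚ) = q ^ 2 * Algebra.norm ℚ D := by
  classical
  have hPI := PI_of_sq hD hδ
  set n := finrank ℚ (maximalRealSubfield F) with hn
  let b : Basis (Fin n) ℚ (maximalRealSubfield F) := Module.finBasis ℚ _
  set T := Algebra.traceMatrix ℚ b with hT
  set A := Algebra.leftMulMatrix b D with hA
  let v : Fin n ⊕ Fin n → F := Sum.elim (fun i => (b i : F)) (fun i => (b i : F) * δ)
  have hTA : ∀ i j, (T * A) i j = Algebra.trace ℚ (maximalRealSubfield F) (b i * b j * D) := by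
    intro i j
    rw [Matrix.mul_apply]
    have h1 : b i * b j * D = ∑ k, A k j • (b i * b k) := by
      have h2 : D * b j = ∑ k, A k j • b k := by
        rw [← b.sum_repr (D * b j)]
        apply Finset.sum_congr rfl
        intro k _
        rw [hA, Algebra.leftMulMatrix_eq_repr_mul]
      have h3 : b i * b j * D = b i * (D * b j) := by ring
      rw [h3, h2, Finset.mul_sum]
      apply Finset.sum_congr rfl
      intro k _
      rw [mul_smul_comm]
    rw [h1, map_sum]
    apply Finset.sum_congr rfl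
    intro k _
    rw [map_smul, smul_eq_mul, mul_comm, hT, Algebra.traceMatrix_apply, Algebra.traceForm_apply]
  have hV : Algebra.traceMatrix ℚ v = fromBlocks ((2 : ℚ) • T) 0 0 ((2 : ℚ) • (T * A)) := by
    ext i j
    rw [Algebra.traceMatrix_apply, Algebra.traceForm_apply]
    rcases i with i | i <;> rcases j with j | j
    · have h1 : v (Sum.inl i) * v (Sum.inl j) = ((b i * b j : maximalRealSubfield F) : F) := rfl
      rw [h1, trace_coe, fromBlocks_apply₁₁, Matrix.smul_apply, smul_eq_mul, hT,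
        Algebra.traceMatrix_apply, Algebra.traceForm_apply]
    · have h1 : v (Sum.inl i) * v (Sum.inr j) =
          ((b i * b j : maximalRealSubfield F) : F) * δ := by
        change (b i : F) * ((b j : F) * δ) = ((b i : F) * (b j : F)) * δ
        ring
      rw [h1, trace_mul_PI hPI, fromBlocks_apply₁₂]
      rfl
    · have h1 : v (Sum.inr i) * v (Sum.inl j) =
          ((b i * b j : maximalRealSubfield F) : F) * δ := by
        change ((b i : F) * δ) * (b j : F) = ((b i : F) * (b j : F)) * δ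
        ring
      rw [h1, trace_mul_PI hPI, fromBlocks_apply₂₁]
      rfl
    · have h1 : v (Sum.inr i) * v (Sum.inr j) =
          ((b i * b j * D : maximalRealSubfield F) : F) := by
        change ((b i : F) * δ) * ((b j : F) * δ) = ((b i : F) * (b j : F)) * (D : F)
        rw [← hδ]
        ring
      rw [h1, trace_coe, fromBlocks_apply₂₂, Matrix.smul_apply, smul_eq_mul, hTA]
  have hdetV : (Algebra.traceMatrix ℚ v).det = (2 ^ n * T.det) ^ 2 * Algebra.norm ℚ D := by
    rw [hV, det_fromBlocks_zero₂₁, det_smul, det_smul, det_mul, Fintype.card_fin,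
      Algebra.norm_eq_matrix_det b D]
    ring
  have hT0 : T.det ≠ 0 := Algebra.discr_not_zero_of_basis ℚ b
  have hN0 : Algebra.norm ℚ D ≠ 0 := by
    intro h1
    rw [Algebra.norm_eq_zero_iff] at h1
    rw [h1] at hδ
    exact hPI.1 (pow_eq_zero_iff two_ne_zero |>.1 hδ)
  let IB := integralBasis F
  have hcard : Fintype.card (Free.ChooseBasisIndex ℤ (𝓞 F)) = Fintype.card (Fin n ⊕ Fin n) := by
    rw [← finrank_eq_card_basis IB, Fintype.card_sum, Fintype.card_fin,
      ← Module.finrank_mul_finrank ℚ (maximalRealSubfield F) F,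
      Algebra.IsQuadraticExtension.finrank_eq_two (maximalRealSubfield F) F]
    omega
  let e : Free.ChooseBasisIndex ℤ (𝓞 F) ≃ Fin n ⊕ Fin n := Fintype.equivOfCardEq hcard
  have h1 : Algebra.discr ℚ (v ∘ e) = (Algebra.traceMatrix ℚ v).det := by
    rw [Algebra.discr_def]
    have h2 : Algebra.traceMatrix ℚ (v ∘ e) = (Algebra.traceMatrix ℚ v).submatrix e e := by
      ext i j
      rfl
    rw [h2, det_submatrix_equiv_self]
  let P : Matrix (Free.ChooseBasisIndex ℤ (𝓞 F)) (Free.ChooseBasisIndex ℤ (𝓞 F)) ℚ :=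
    fun i j => IB.repr (v (e j)) i
  have h2 : v ∘ e = Matrix.vecMul IB (P.map (algebraMap ℚ F)) := by
    ext j
    change v (e j) = ∑ i, IB i * algebraMap ℚ F (P i j)
    rw [← IB.sum_repr (v (e j))]
    apply Finset.sum_congr rfl
    intro i _
    rw [Algebra.smul_def, mul_comm]
  have h3 := Algebra.discr_of_matrix_vecMul (A := ℚ) IB P
  rw [← h2, h1, hdetV, ← NumberField.coe_discr] at h3
  have hP0 : P.det ≠ 0 := by
    intro h4
    rw [h4] at h3
    have h5 : (2 ^ n * T.det) ^ 2 * Algebra.norm ℚ D ≠ 0 :=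
      mul_ne_zero (pow_ne_zero _ (mul_ne_zero (pow_ne_zero _ two_ne_zero) hT0)) hN0
    exact h5 (by rw [h3]; ring)
  refine ⟨(2 ^ n * T.det) / P.det, div_ne_zero (mul_ne_zero (pow_ne_zero _ two_ne_zero) hT0) hP0, ?_⟩
  rw [div_pow, div_mul_eq_mul_div, h3]
  field_simp

/-- `√|disc F|` is `𝔦 ^ (d_F / 2) Δ_F` up to a rational number -/
theorem sqrt_discr {x : ℂ} (h : IsDelta F x) : ∃ r : ℚ, r ≠ 0 ∧
    ((Real.sqrt (discr F).natAbs : ℝ) : ℂ) = r * (Complex.I ^ (finrank ℚ F / 2) * x) := by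
  classical
  have hfin : finrank (maximalRealSubfield F) F = 2 :=
    Algebra.IsQuadraticExtension.finrank_eq_two _ _
  rcases h with ⟨D, δ, y, hD, hδ, hy, hx⟩ | ⟨h, _⟩
  · obtain ⟨q, hq0, hq⟩ := discr_cm D δ hD hδ
    have hx' : x = y := by rw [hx, hfin]; simp
    have hcard : Fintype.card (maximalRealSubfield F →+* ℂ) = finrank ℚ F / 2 := by
      have h1 := NumberField.Embeddings.card (maximalRealSubfield F) ℂ
      have h2 := Module.finrank_mul_finrank ℚ (maximalRealSubfield F) F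
      rw [hfin] at h2
      omega
    set j := finrank ℚ F / 2 with hj
    -- the sign of the norm
    obtain ⟨s, hs0, hs⟩ : ∃ s : ℝ, 0 < s ∧ ((Algebra.norm ℚ D : ℚ) : ℂ) = (-1) ^ j * s := by
      choose t ht0 ht using hD
      refine ⟨∏ σ, (-t σ), Finset.prod_pos fun σ _ => by linarith [ht0 σ], ?_⟩
      have h1 := Algebra.norm_eq_prod_embeddings ℚ ℂ D
      rw [← (RingHom.equivRatAlgHom (maximalRealSubfield F) ℂ).prod_comp] at h1
      have h2 : ((Algebra.norm ℚ D : ℚ) : ℂ) = ∏ σ : maximalRealSubfield F →+* ℂ, σ D := h1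
      rw [h2, Finset.prod_congr rfl fun σ _ => ht σ, ← hcard, ← Finset.card_univ,
        ← Finset.prod_const]
      push_cast
      rw [← Finset.prod_mul_distrib]
      apply Finset.prod_congr rfl
      intro σ _
      ring
    have hw : (Complex.I ^ j * x) ^ 2 = (s : ℂ) := by
      rw [mul_pow, hx', hy, hs, ← pow_mul, mul_comm j 2, pow_mul, Complex.I_sq, ← mul_assoc,
        ← mul_pow]
      simp
    have habs : (((discr F).natAbs : ℝ)) = (q : ℝ) ^ 2 * s := by
      have h1 : ((discr F : ℤ) : ℂ) = (q : ℂ) ^ 2 * ((-1) ^ j * s) := by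
        rw [← hs]
        exact_mod_cast congrArg (fun z : ℚ => (z : ℂ)) hq
      have h2 : ((discr F : ℤ) : ℝ) = (q : ℝ) ^ 2 * ((-1) ^ j * s) := by exact_mod_cast h1
      rw [Nat.cast_natAbs, Int.cast_abs, h2, abs_mul, abs_mul, abs_pow, abs_pow, abs_neg, abs_one,
        one_pow, one_mul, abs_of_pos hs0, sq_abs]
    have hsqrt : Real.sqrt ((discr F).natAbs : ℝ) = |(q : ℝ)| * Real.sqrt s := by
      rw [habs, Real.sqrt_mul (sq_nonneg _), Real.sqrt_sq_eq_abs]
    have h4 : (Complex.I ^ j * x) ^ 2 = ((Real.sqrt s : ℝ) : ℂ) ^ 2 := by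
      rw [hw]
      have := Real.sq_sqrt hs0.le
      exact_mod_cast this.symm
    rcases sq_eq_sq_iff_eq_or_eq_neg.1 h4 with h5 | h5
    · refine ⟨|q|, abs_ne_zero.2 hq0, ?_⟩
      rw [h5, hsqrt, ← Rat.cast_abs, Complex.ofReal_mul, Complex.ofReal_ratCast]
    · refine ⟨-|q|, neg_ne_zero.2 (abs_ne_zero.2 hq0), ?_⟩
      rw [h5, hsqrt, ← Rat.cast_abs, Complex.ofReal_mul, Complex.ofReal_ratCast, Rat.cast_neg]
      ring
  · exfalso
    apply h
    exact ⟨F, inferInstance, inferInstance, inferInstance, ⟨RingHom.id F⟩⟩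

end Pool.Agent.V8H84.OM
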