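import Pool.Agent.V8H84.OM.Norm

set_option autoImplicit false

/-!
# Square classes: the de Rham and the Betti form of an orthogonal motive
-/

namespace Pool.Agent.V8H84.OM

open scoped TensorProduct
open Module NumberField Matrix

variable {F E : Type} [Field F] [NumberField F] [Field E] [NumberField E]

/-- an element of `E` with one value at all embeddings is rational -/
lemma rational_of_const (r : E) (c : ℂ) (h : ∀ ι : E →+* ℂ, ι r = c) :
    ∃ q : ℚ, c = q := by
  have h1 := trace_eq_sum_embeddings (K := ℚ) (L := E) ℂ (x := r)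
  have h2 : ∑ σ : E →ₐ[ℚ] ℂ, σ r = finrank ℚ E * c := by
    have h3 : ∀ σ : E →ₐ[ℚ] ℂ, σ r = c := fun σ => h (σ : E →+* ℂ)
    rw [Finset.sum_congr rfl fun σ _ => h3 σ, Finset.sum_const, Finset.card_univ,
      AlgHom.card ℚ E ℂ, nsmul_eq_mul]
  rw [h2] at h1
  have hn : ((finrank ℚ E : ℕ) : ℂ) ≠ 0 := by
    have := finrank_pos (R := ℚ) (M := E)
    exact_mod_cast this.ne'
  refine ⟨Algebra.trace ℚ E r / finrank ℚ E, ?_⟩
  push_cast
  rw [eq_div_iff hn, mul_comm]
  exact h1.symm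

lemma norm_rat (d : F) : ((Algebra.norm ℚ d : ℚ) : ℂ) = ∏ σ : F →+* ℂ, σ d := by
  have h := Algebra.norm_eq_prod_embeddings ℚ ℂ d
  rw [← (RingHom.equivRatAlgHom F ℂ).prod_comp] at h
  exact h

/-- **The norm of the discriminant character is a square.** -/
theorem norm_sq [IsTotallyComplex F] [IsTotallyReal E] (d : F) (δ : E)
    (hδ : ∀ ι : E →+* ℂ, ∃ r : ℝ, 0 < r ∧ ι δ = r) (ε : E ⊗[ℚ] F) (hε : ε = 1 ∨ ε = -1)
    (y B : E ⊗[ℚ] F) (hy : IsUnit y) (hB : IsUnit B) (h : (δ ⊗ₜ d) * y ^ 2 = ε * B ^ 2) :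
    ∃ q : ℚ, q ≠ 0 ∧ Algebra.norm ℚ d = q ^ 2 := by
  classical
  have hreal : ∀ (ι : E →+* ℂ) (e : E), star (ι e) = ι e := fun ι e => by
    have := IsTotallyReal.complexEmbedding_isReal ι
    exact congrArg (fun f : E →+* ℂ => f e) this
  obtain ⟨j, hj⟩ : ∃ j, finrank ℚ F = 2 * j := ⟨_, IsTotallyComplex.finrank (K := F)⟩
  have hcard : Fintype.card (F →+* ℂ) = 2 * j := by
    rw [← hj]
    exact NumberField.Embeddings.card F ℂ
  set r : E := Algebra.norm E B / (Algebra.norm E y * δ ^ j) with hr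
  have key : ∀ ι : E →+* ℂ, ∃ t : ℝ, 0 < t ∧ ι r = t ∧ (t : ℂ) ^ 2 = (Algebra.norm ℚ d : ℚ) := by
    intro ι
    obtain ⟨b1, hb1, hb2⟩ := norm_pos ι (hreal ι) B hB
    obtain ⟨y1, hy1, hy2⟩ := norm_pos ι (hreal ι) y hy
    obtain ⟨δ1, hδ1, hδ2⟩ := hδ ι
    have h1 : (δ1 : ℂ) ^ (2 * j) * (Algebra.norm ℚ d : ℚ) * (y1 : ℂ) ^ 2 = (b1 : ℂ) ^ 2 := by
      have h2 : ∏ σ : F →+* ℂ, ev ι σ ((δ ⊗ₜ d) * y ^ 2) = ∏ σ : F →+* ℂ, ev ι σ (ε * B ^ 2) := by
        rw [h]
      have h3 : ∀ σ : F →+* ℂ, ev ι σ ((δ ⊗ₜ d) * y ^ 2) = (ι δ * σ d) * (ev ι σ y) ^ 2 := by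
        intro σ
        rw [map_mul, map_pow, ev_tmul]
      have h4 : ∀ σ : F →+* ℂ, ev ι σ (ε * B ^ 2) = (ev ι σ ε) * (ev ι σ B) ^ 2 := by
        intro σ
        rw [map_mul, map_pow]
      have h5 : ∏ σ : F →+* ℂ, ev ι σ ε = 1 := by
        rcases hε with h6 | h6
        · rw [h6]
          simp
        · rw [h6]
          have h7 : ∀ σ : F →+* ℂ, ev ι σ (-1 : E ⊗[ℚ] F) = -1 := fun σ => by
            rw [map_neg, map_one]
          rw [Finset.prod_congr rfl fun σ _ => h7 σ, Finset.prod_const, Finset.card_univ, hcard,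
            pow_mul]
          simp
      rw [Finset.prod_congr rfl fun σ _ => h3 σ, Finset.prod_congr rfl fun σ _ => h4 σ,
        Finset.prod_mul_distrib, Finset.prod_mul_distrib, Finset.prod_mul_distrib, h5, one_mul,
        Finset.prod_const, Finset.card_univ, hcard, Finset.prod_pow, Finset.prod_pow, ← norm_ev,
        ← norm_ev, ← norm_rat, hb2, hy2, hδ2] at h2
      exact h2
    have hδ0 : (δ1 : ℂ) ≠ 0 := by exact_mod_cast hδ1.ne'
    have hy0 : (y1 : ℂ) ≠ 0 := by exact_mod_cast hy1.ne'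
    refine ⟨b1 / (y1 * δ1 ^ j), by positivity, ?_, ?_⟩
    · rw [hr, map_div₀, map_mul, map_pow, hb2, hy2, hδ2]
      push_cast
      rfl
    · push_cast
      rw [div_pow, ← h1, mul_pow, ← pow_mul, mul_comm j 2]
      field_simp
  obtain ⟨ι₀⟩ : Nonempty (E →+* ℂ) := inferInstance
  obtain ⟨t0, ht0, ht1, ht2⟩ := key ι₀
  have hconst : ∀ ι : E →+* ℂ, ι r = (t0 : ℂ) := by
    intro ι
    obtain ⟨t, h1, h2, h3⟩ := key ι
    rw [h2]
    have h4 : t ^ 2 = t0 ^ 2 := by
      have : (t : ℂ) ^ 2 = (t0 : ℂ) ^ 2 := by rw [h3, ht2]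
      exact_mod_cast this
    have h5 : t = t0 := by
      have := abs_eq_abs.2 (sq_eq_sq_iff_eq_or_eq_neg.1 h4)
      rwa [abs_of_pos h1, abs_of_pos ht0] at this
    rw [h5]
  obtain ⟨q, hq⟩ := rational_of_const r _ hconst
  refine ⟨q, ?_, ?_⟩
  · rintro rfl
    have : (t0 : ℂ) = 0 := by rw [hq]; simp
    have : t0 = 0 := by exact_mod_cast this
    exact ht0.ne' this
  · rw [hq] at ht2
    exact_mod_cast ht2.symm

section Blocks

variable (R : Type) [CommRing R] (k : ℕ)

/-- the exchange of the two blocks -/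
def sw : Matrix (Fin k ⊕ Fin k) (Fin k ⊕ Fin k) R := fromBlocks 0 1 1 0

lemma sw_mul : sw R k * sw R k = 1 := by
  unfold sw
  rw [fromBlocks_multiply]
  simp

lemma sw_det : (sw R k).det = 1 ∨ (sw R k).det = -1 := by
  have h1 : (sw ℤ k).det * (sw ℤ k).det = 1 := by
    rw [← det_mul, sw_mul, det_one]
  have h2 : (sw R k).det = (Int.castRingHom R) (sw ℤ k).det := by
    rw [RingHom.map_det]
    congr 1
    unfold sw
    ext i j
    rcases i with i | i <;> rcases j with j | j <;>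
      simp [Matrix.one_apply, apply_ite (Int.cast : ℤ → R)]
  rcases Int.isUnit_iff.1 (IsUnit.of_mul_eq_one _ h1) with h3 | h3
  · left
    rw [h2, h3]
    simp
  · right
    rw [h2, h3]
    simp

lemma det_hyp (B C : Matrix (Fin k) (Fin k) R) :
    (fromBlocks 0 B Bᵀ C).det = (sw R k).det * B.det ^ 2 := by
  have h1 : fromBlocks 0 B Bᵀ C = fromBlocks B 0 C Bᵀ * sw R k := by
    unfold sw
    rw [fromBlocks_multiply]
    simp
  rw [h1, det_mul, det_fromBlocks_zero₁₂, det_transpose]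
  ring

end Blocks

/-- a nondegenerate real form that vanishes on a complex subspace which is complementary to its
conjugate has positive determinant -/
theorem betti_pos (k : ℕ) (S : Matrix (Fin k ⊕ Fin k) (Fin k ⊕ Fin k) ℝ) (hS : Sᵀ = S)
    (h0 : S.det ≠ 0) (v : Matrix (Fin k ⊕ Fin k) (Fin k) ℂ)
    (hv : (fromCols v (v.map star)).det ≠ 0)
    (hv0 : vᵀ * S.map (fun x => (x : ℂ)) * v = 0) : 0 < S.det := by
  set T : Matrix (Fin k ⊕ Fin k) (Fin k ⊕ Fin k) ℂ := S.map (fun x => (x : ℂ)) with hT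
  have hTT : Tᵀ = T := by
    rw [hT, ← Matrix.transpose_map, hS]
  have hTs : T.map star = T := by
    ext i j
    simp [hT]
  set P := fromCols v (v.map star) with hP
  set H := vᵀ * T * v.map star with hH
  have mapmul : ∀ {a b c : Type} [Fintype b] (X : Matrix a b ℂ) (Y : Matrix b c ℂ),
      (X * Y).map star = X.map star * Y.map star := by
    intro a b c _ X Y
    ext i j
    simp [Matrix.mul_apply, star_sum, mul_comm]
  have hss : (v.map star).map star = v := by
    ext i j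
    simp
  have hG : Pᵀ * T * P = fromBlocks 0 H Hᵀ 0 := by
    have e1 : Pᵀ = fromRows vᵀ (v.map star)ᵀ := by
      rw [hP, transpose_fromCols]
    rw [e1, fromRows_mul, hP, fromRows_mul_fromCols]
    congr 1
    · rw [hH, transpose_mul, transpose_mul, transpose_transpose, hTT, Matrix.mul_assoc]
    · have e2 : (v.map star)ᵀ * T * v.map star = (vᵀ * T * v).map star := by
        rw [mapmul, mapmul, hTs]
        rfl
      rw [e2, hv0]
      ext i j
      simp
  have hdetT : T.det = ((S.det : ℝ) : ℂ) := by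
    have : T = (Complex.ofRealHom).mapMatrix S := rfl
    rw [this, ← RingHom.map_det]
    rfl
  have hd1 : P.det ^ 2 * ((S.det : ℝ) : ℂ) = (sw ℂ k).det * H.det ^ 2 := by
    have h1 := congrArg Matrix.det hG
    rw [det_mul, det_mul, det_transpose, det_hyp, hdetT] at h1
    rw [← h1]
    ring
  have hPs : star P.det = P.det * (sw ℂ k).det := by
    have h1 : P.map star = P * sw ℂ k := by
      unfold sw
      rw [hP, fromCols_mul_fromBlocks]
      ext i j
      rcases j with j | j <;> simp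
    have h2 : star P.det = (P.map star).det := by
      have := (starRingEnd ℂ).map_det P
      exact this
    rw [h2, h1, det_mul]
  have hHs : star H.det = H.det := by
    have h1 : H.map star = Hᵀ := by
      rw [hH, mapmul, mapmul, hTs, hss, transpose_mul, transpose_mul, transpose_transpose, hTT,
        Matrix.mul_assoc]
      rfl
    have h2 : star H.det = (H.map star).det := by
      have := (starRingEnd ℂ).map_det H
      exact this
    rw [h2, h1, det_transpose]
  obtain ⟨x, hx⟩ : ∃ x : ℝ, H.det = x := ⟨H.det.re, (Complex.conj_eq_iff_re.1 hHs).symm⟩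
  have hsq : (sw ℂ k).det * (sw ℂ k).det = 1 := by
    rw [← det_mul, sw_mul, det_one]
  have h2 : ((‖P.det‖ ^ 2 * S.det : ℝ) : ℂ) = ((x ^ 2 : ℝ) : ℂ) := by
    have h3 : ((‖P.det‖ : ℂ)) ^ 2 = star P.det * P.det := (Complex.conj_mul' _).symm
    push_cast
    rw [h3, hPs, ← hx]
    calc P.det * (sw ℂ k).det * P.det * ((S.det : ℝ) : ℂ)
        = (sw ℂ k).det * (P.det ^ 2 * ((S.det : ℝ) : ℂ)) := by ring
      _ = ((sw ℂ k).det * (sw ℂ k).det) * H.det ^ 2 := by rw [hd1]; ring
      _ = H.det ^ 2 := by rw [hsq, one_mul]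
  have h3 : ‖P.det‖ ^ 2 * S.det = x ^ 2 := by exact_mod_cast h2
  have h4 : 0 < ‖P.det‖ := norm_pos_iff.2 hv
  have h5 : 0 ≤ S.det := by
    by_contra hcon
    push Not at hcon
    have h6 : ‖P.det‖ ^ 2 * S.det < 0 := mul_neg_of_pos_of_neg (by positivity) hcon
    nlinarith [sq_nonneg x]
  exact lt_of_le_of_ne h5 (Ne.symm h0)

end Pool.Agent.V8H84.OM
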